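import Mathlib

set_option autoImplicit false
set_option linter.unusedSectionVars false

namespace Pool.Agent.Results.MP_2a7bed_co.BoundaryLeHearing

open Finset

universe u

variable {V : Type u}

section defs

variable [Fintype V]

open Classical in
/-- the eccentricity of `v` in its connected component (for connected `G` the usual one) -/
noncomputable def ecc (G : SimpleGraph V) (v : V) : ℕ :=
  (Finset.univ.filter (fun u => G.Reachable v u)).sup (fun u => G.dist v u)

/-- `u` hears `f` from the broadcasting vertex `v` (distances between different components are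
infinite) -/
def Hears (G : SimpleGraph V) (f : V → ℕ) (u v : V) : Prop :=
  0 < f v ∧ G.edist u v ≤ (f v : ℕ∞)

/-- broadcasts: `f v ≤ e(v)` on components with at least two vertices, and `f v = 1` if the
component of `v` is `{v}` (that is, `e(v) = 0`) -/
def IsBroadcast (G : SimpleGraph V) (f : V → ℕ) : Prop :=
  ∀ v, (0 < ecc G v → f v ≤ ecc G v) ∧ (ecc G v = 0 → f v = 1)

/-- boundary independence -/
def BnIndep (G : SimpleGraph V) (f : V → ℕ) : Prop :=
  ∀ x, (∃ v w, v ≠ w ∧ Hears G f x v ∧ Hears G f x w) →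
    ∀ u, 0 < f u → (f u : ℕ∞) ≤ G.edist x u

/-- hearing independence -/
def HIndep (G : SimpleGraph V) (f : V → ℕ) : Prop :=
  ∀ u v, 0 < f u → 0 < f v → u ≠ v → ¬ Hears G f u v

/-- `f` is a maximal broadcast with property `P` -/
def IsMaxl (G : SimpleGraph V) (P : (V → ℕ) → Prop) (f : V → ℕ) : Prop :=
  IsBroadcast G f ∧ P f ∧ ∀ g, IsBroadcast G g → (∀ v, f v ≤ g v) → g ≠ f → ¬ P g

/-- the cost of a broadcast -/
def cost (f : V → ℕ) : ℕ := ∑ v, f v

/-- `i_bn(G)` -/
noncomputable def iBn (G : SimpleGraph V) : ℕ :=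
  sInf {c | ∃ f, IsMaxl G (BnIndep G) f ∧ cost f = c}

/-- `i_h(G)` -/
noncomputable def iH (G : SimpleGraph V) : ℕ :=
  sInf {c | ∃ f, IsMaxl G (HIndep G) f ∧ cost f = c}

end defs

/-! ### distances -/

/-- distance at most `k` -/
def N (G : SimpleGraph V) (u v : V) (k : ℕ) : Prop := ∃ p : G.Walk u v, p.length ≤ k

variable {G : SimpleGraph V}

lemma N_iff {u v : V} {k : ℕ} : N G u v k ↔ G.edist u v ≤ (k : ℕ∞) := by
  constructor
  · rintro ⟨p, hp⟩
    exact (SimpleGraph.edist_le p).trans (by exact_mod_cast hp)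
  · intro h
    have h1 : G.edist u v ≠ ⊤ := by
      intro h2
      rw [h2, top_le_iff] at h
      exact (ENat.natCast_ne_top k) h
    obtain ⟨p, hp⟩ := SimpleGraph.exists_walk_of_edist_ne_top h1
    refine ⟨p, ?_⟩
    rw [← hp] at h
    exact_mod_cast h

lemma N_self (u : V) (k : ℕ) : N G u u k := ⟨SimpleGraph.Walk.nil, by simp⟩

lemma N_symm {u v : V} {k : ℕ} (h : N G u v k) : N G v u k := by
  obtain ⟨p, hp⟩ := h
  exact ⟨p.reverse, by simpa using hp⟩

lemma N_mono {u v : V} {k l : ℕ} (h : N G u v k) (hl : k ≤ l) : N G u v l := by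
  obtain ⟨p, hp⟩ := h
  exact ⟨p, hp.trans hl⟩

lemma N_trans {u v w : V} {k l : ℕ} (h : N G u v k) (h' : N G v w l) : N G u w (k + l) := by
  obtain ⟨p, hp⟩ := h
  obtain ⟨q, hq⟩ := h'
  exact ⟨p.append q, by rw [SimpleGraph.Walk.length_append]; omega⟩

lemma N_zero {u v : V} (h : N G u v 0) : u = v := by
  obtain ⟨p, hp⟩ := h
  exact SimpleGraph.Walk.eq_of_length_eq_zero (p := p) (by omega)

lemma N_split {u v : V} {k l : ℕ} (h : N G u v (k + l)) : ∃ w, N G u w k ∧ N G w v l := by
  obtain ⟨p, hp⟩ := h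
  refine ⟨p.getVert k, ⟨p.take k, ?_⟩, ⟨p.drop k, ?_⟩⟩
  · rw [SimpleGraph.Walk.take_length]; exact min_le_left _ _
  · rw [SimpleGraph.Walk.drop_length]; omega

lemma N_reach {u v : V} {k : ℕ} (h : N G u v k) : G.Reachable u v := ⟨h.choose⟩

/-- `a ≤ edist u v` in terms of `N` -/
lemma le_edist_iff {u v : V} {a : ℕ} : (a : ℕ∞) ≤ G.edist u v ↔ ∀ k, N G u v k → a ≤ k := by
  constructor
  · intro h k hk
    exact_mod_cast h.trans (N_iff.1 hk)
  · intro h
    by_cases h1 : G.edist u v = ⊤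
    · rw [h1]; exact le_top
    · obtain ⟨p, hp⟩ := SimpleGraph.exists_walk_of_edist_ne_top h1
      rw [← hp]
      exact_mod_cast h p.length ⟨p, le_rfl⟩

section

variable [Fintype V]

lemma N_ecc {u v : V} (h : G.Reachable v u) : N G v u (ecc G v) := by
  classical
  obtain ⟨p, hp⟩ := h.exists_walk_length_eq_dist
  refine ⟨p, ?_⟩
  rw [hp]
  have : u ∈ Finset.univ.filter (fun u => G.Reachable v u) := by simpa using h
  exact Finset.le_sup (f := fun u => G.dist v u) this

lemma lt_ecc {v : V} {k : ℕ} (h : k < ecc G v) : ∃ u, G.Reachable v u ∧ ¬ N G v u k := by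
  classical
  unfold ecc at h
  rw [Finset.lt_sup_iff] at h
  obtain ⟨u, hu, hk⟩ := h
  rw [Finset.mem_filter] at hu
  refine ⟨u, hu.2, ?_⟩
  rintro ⟨p, hp⟩
  have := SimpleGraph.dist_le p
  omega

lemma ecc_zero {u v : V} (h : ecc G v = 0) (hr : G.Reachable v u) : v = u := by
  have := N_ecc hr
  rw [h] at this
  exact N_zero this

/-! ### clusters -/

/-- the vertices hearing some vertex of `C` -/
def Y (G : SimpleGraph V) (f : V → ℕ) (C : Finset V) (x : V) : Prop := ∃ u ∈ C, N G x u (f u)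

/-- total strength -/
def R (f : V → ℕ) (C : Finset V) : ℕ := ∑ u ∈ C, f u

/-- admissible centres -/
def Adm (G : SimpleGraph V) (f : V → ℕ) (C : Finset V) (w : V) : Prop :=
  ∀ x, Y G f C x → N G w x (R f C)

/-- flexible clusters -/
def Flex (G : SimpleGraph V) (f : V → ℕ) (C : Finset V) : Prop :=
  ∀ b, Y G f C b → ∃ w, Adm G f C w ∧ ∃ k, k + 1 ≤ R f C ∧ N G w b k

lemma merge_aux [DecidableEq V] {f : V → ℕ} {C₁ C₂ : Finset V} (hd : Disjoint C₁ C₂) {w₁ w₂ : V}
    (h₁ : Adm G f C₁ w₁) (h₂ : Adm G f C₂ w₂) (hR₂ : 0 < R f C₂) {k : ℕ} (hk : N G w₁ w₂ k)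
    (hk' : k + 1 ≤ R f C₁ + R f C₂) (b : V) (hb : Y G f C₁ b) :
    ∃ w, Adm G f (C₁ ∪ C₂) w ∧ ∃ k, k + 1 ≤ R f (C₁ ∪ C₂) ∧ N G w b k := by
  have hRR : R f (C₁ ∪ C₂) = R f C₁ + R f C₂ := Finset.sum_union hd
  obtain ⟨w, hw1, hw2⟩ := N_split (N_mono (l := (R f C₂ - 1) + R f C₁) hk (by omega))
  have key : ∀ x, Y G f C₁ x → N G w x (R f C₂ - 1 + R f C₁) := fun x hx =>
    N_trans (N_symm hw1) (h₁ x hx)
  refine ⟨w, ?_, R f C₂ - 1 + R f C₁, by omega, key b hb⟩
  rintro x ⟨u, hu, hxu⟩
  rw [hRR]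
  rcases Finset.mem_union.1 hu with hu | hu
  · exact N_mono (key x ⟨u, hu, hxu⟩) (by omega)
  · exact N_trans hw2 (h₂ x ⟨u, hu, hxu⟩)

lemma merge [DecidableEq V] {f : V → ℕ} {C₁ C₂ : Finset V} (hd : Disjoint C₁ C₂) {w₁ w₂ : V}
    (h₁ : Adm G f C₁ w₁) (h₂ : Adm G f C₂ w₂) (hR₁ : 0 < R f C₁) (hR₂ : 0 < R f C₂)
    {k : ℕ} (hk : N G w₁ w₂ k) (hk' : k + 1 ≤ R f C₁ + R f C₂) : Flex G f (C₁ ∪ C₂) := by
  rintro b ⟨u, hu, hbu⟩
  rcases Finset.mem_union.1 hu with hu | hu
  · exact merge_aux hd h₁ h₂ hR₂ hk hk' b ⟨u, hu, hbu⟩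
  · have := merge_aux hd.symm h₂ h₁ hR₁ (N_symm hk) (by omega) b ⟨u, hu, hbu⟩
    rwa [Finset.union_comm]

/-! ### boundary independence pairwise -/

lemma bn_of_pair {g : V → ℕ}
    (h : ∀ u v, u ≠ v → 0 < g u → 0 < g v → ∀ k, N G u v k → g u + g v ≤ k) : BnIndep G g := by
  rintro x ⟨v, w, hvw, ⟨hv, hxv⟩, ⟨hw, hxw⟩⟩ u hu
  rw [le_edist_iff]
  intro k hk
  rw [← N_iff] at hxv hxw
  by_cases huv : u = v
  · subst huv
    have := h u w hvw hv hw _ (N_trans (N_symm hk) hxw)
    omega
  · have := h u v huv hu hv _ (N_trans (N_symm hk) hxv)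
    omega

lemma pair_of_bn {g : V → ℕ} (h : BnIndep G g) {u v : V} (huv : u ≠ v) (hu : 0 < g u)
    (hv : 0 < g v) (hN : N G u v (g u - 1 + g v)) : False := by
  obtain ⟨x, hx1, hx2⟩ := N_split hN
  have h1 := h x ⟨u, v, huv, ⟨hu, N_iff.1 (N_mono (N_symm hx1) (by omega))⟩, ⟨hv, N_iff.1 hx2⟩⟩ u hu
  rw [le_edist_iff] at h1
  have := h1 _ (N_symm hx1)
  omega

/-- criterion for maximality -/
lemma max_of {g : V → ℕ} (hb : IsBroadcast G g)
    (hp : ∀ u v, u ≠ v → 0 < g u → 0 < g v → ∀ k, N G u v k → g u + g v ≤ k)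
    (hdom : ∀ x, ∃ u, 0 < g u ∧ N G x u (g u))
    (ht : ∀ v, 0 < g v → ecc G v ≤ g v ∨ ∃ u, u ≠ v ∧ 0 < g u ∧ N G v u (g v + g u)) :
    IsMaxl G (BnIndep G) g := by
  refine ⟨hb, bn_of_pair hp, ?_⟩
  intro g' hb' hle hne hbn
  obtain ⟨v, hv⟩ : ∃ v, g' v ≠ g v := by
    by_contra hcon
    push Not at hcon
    exact hne (funext hcon)
  have hlt : g v < g' v := lt_of_le_of_ne (hle v) (Ne.symm hv)
  by_cases h0 : g v = 0
  · obtain ⟨u, hu, hN⟩ := hdom v
    have huv : u ≠ v := by rintro rfl; omega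
    have := hle u
    exact pair_of_bn hbn huv (by omega) (by omega) (N_mono (N_symm hN) (by omega))
  · rcases ht v (by omega) with h | ⟨u, huv, hu, hN⟩
    · have h1 := hb' v
      have h2 := hb v
      rcases Nat.eq_zero_or_pos (ecc G v) with h3 | h3
      · have := h1.2 h3
        have := h2.2 h3
        omega
      · have := h1.1 h3
        omega
    · have := hle u
      exact pair_of_bn hbn huv (by omega) (by omega) (N_mono (N_symm hN) (by omega))

/-- the main construction -/
lemma main_lemma {f : V → ℕ} (hf : IsMaxl G (HIndep G) f) :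
    ∃ g, IsMaxl G (BnIndep G) g ∧ cost g ≤ cost f := by
  classical
  obtain ⟨hfb, hfh, hfm⟩ := hf
  have h1 : ∀ u v, 0 < f u → 0 < f v → u ≠ v → ¬ N G u v (f v) := by
    intro u v hu hv huv hN
    exact hfh u v hu hv huv ⟨hv, N_iff.1 hN⟩
  -- domination
  have hdom : ∀ x, ∃ u, 0 < f u ∧ N G x u (f u) := by
    intro x
    by_cases hx : 0 < f x
    · exact ⟨x, hx, N_self x _⟩
    have hx0 : f x = 0 := by omega
    have he : 0 < ecc G x := by
      rcases Nat.eq_zero_or_pos (ecc G x) with h | h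
      · have := (hfb x).2 h
        omega
      · exact h
    have h2 := hfm (Function.update f x 1) ?_ ?_ ?_
    · unfold HIndep at h2
      push Not at h2
      obtain ⟨u, v, hu, hv, huv, ⟨-, hN⟩⟩ := h2
      rw [← N_iff] at hN
      by_cases hvx : v = x
      · subst hvx
        rw [Function.update_self] at hN
        rw [Function.update_of_ne huv] at hu
        exact ⟨u, hu, N_mono (N_symm hN) hu⟩
      · rw [Function.update_of_ne hvx] at hN hv
        by_cases hux : u = x
        · subst hux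
          exact ⟨v, hv, hN⟩
        · rw [Function.update_of_ne hux] at hu
          exact absurd hN (h1 u v hu hv huv)
    · intro v
      by_cases hvx : v = x
      · subst hvx
        rw [Function.update_self]
        exact ⟨fun h => h, fun _ => rfl⟩
      · rw [Function.update_of_ne hvx]
        exact hfb v
    · intro v
      by_cases hvx : v = x
      · subst hvx
        rw [Function.update_self]; omega
      · rw [Function.update_of_ne hvx]
    · intro h
      have := congrFun h x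
      rw [Function.update_self] at this
      omega
  -- partners
  have hpart : ∀ v, 0 < f v → f v < ecc G v → ∃ u, u ≠ v ∧ 0 < f u ∧ N G v u (f v + 1) := by
    intro x hx hlt
    have h2 := hfm (Function.update f x (f x + 1)) ?_ ?_ ?_
    · unfold HIndep at h2
      push Not at h2
      obtain ⟨u, v, hu, hv, huv, ⟨-, hN⟩⟩ := h2
      rw [← N_iff] at hN
      by_cases hvx : v = x
      · subst hvx
        rw [Function.update_self] at hN
        rw [Function.update_of_ne huv] at hu
        exact ⟨u, huv, hu, N_symm hN⟩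
      · rw [Function.update_of_ne hvx] at hN hv
        by_cases hux : u = x
        · subst hux
          exact absurd hN (h1 u v hx hv huv)
        · rw [Function.update_of_ne hux] at hu
          exact absurd hN (h1 u v hu hv huv)
    · intro v
      by_cases hvx : v = x
      · subst hvx
        rw [Function.update_self]
        exact ⟨fun _ => hlt, fun h => by omega⟩
      · rw [Function.update_of_ne hvx]
        exact hfb v
    · intro v
      by_cases hvx : v = x
      · subst hvx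
        rw [Function.update_self]; omega
      · rw [Function.update_of_ne hvx]
    · intro h
      have := congrFun h x
      rw [Function.update_self] at this
      omega
  -- clusters
  set S : Finset V := Finset.univ.filter (fun v => 0 < f v) with hS
  have memS : ∀ v, v ∈ S ↔ 0 < f v := fun v => by simp [hS]
  let C : (V → V) → V → Finset V := fun φ l => S.filter (fun v => φ v = l)
  have memC : ∀ φ l v, v ∈ C φ l ↔ 0 < f v ∧ φ v = l := by
    intro φ l v
    simp only [C, Finset.mem_filter, memS]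
  let Valid : (V → V) → Prop := fun φ =>
    ∀ l ∈ S.image φ, (∃ v, C φ l = {v}) ∨ Flex G f (C φ l)
  have hid : Valid id := by
    intro l hl
    left
    refine ⟨l, ?_⟩
    simp only [Finset.image_id] at hl
    ext v
    rw [memC, Finset.mem_singleton]
    constructor
    · rintro ⟨-, h⟩; exact h
    · rintro rfl; exact ⟨(memS _).1 hl, rfl⟩
  obtain ⟨φ, hφ, hmin⟩ := WellFounded.has_min
    (measure (fun φ : V → V => (S.image φ).card)).wf {φ | Valid φ} ⟨id, hid⟩
  replace hφ : Valid φ := hφ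
  have hRpos : ∀ l ∈ S.image φ, 0 < R f (C φ l) := by
    intro l hl
    obtain ⟨v, hv, rfl⟩ := Finset.mem_image.1 hl
    have hv' := (memS v).1 hv
    exact lt_of_lt_of_le hv' (Finset.single_le_sum (f := f) (fun _ _ => Nat.zero_le _)
      ((memC φ (φ v) v).2 ⟨hv', rfl⟩))
  have hdisj : ∀ l₁ l₂, l₁ ≠ l₂ → Disjoint (C φ l₁) (C φ l₂) := by
    intro l₁ l₂ h
    rw [Finset.disjoint_left]
    intro v hv hv'
    rw [memC] at hv hv'
    exact h (hv.2.symm.trans hv'.2)
  have hsep : ∀ l₁ ∈ S.image φ, ∀ l₂ ∈ S.image φ, l₁ ≠ l₂ → ∀ w₁ w₂, Adm G f (C φ l₁) w₁ →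
      Adm G f (C φ l₂) w₂ → ∀ k, N G w₁ w₂ k → R f (C φ l₁) + R f (C φ l₂) ≤ k := by
    intro l₁ hl₁ l₂ hl₂ hne w₁ w₂ hw₁ hw₂ k hk
    by_contra hcon
    push Not at hcon
    have hflex := merge (hdisj l₁ l₂ hne) hw₁ hw₂ (hRpos l₁ hl₁) (hRpos l₂ hl₂) hk hcon
    let ψ : V → V := fun x => if φ x = l₂ then l₁ else φ x
    have hψ1 : C ψ l₁ = C φ l₁ ∪ C φ l₂ := by
      ext v
      rw [Finset.mem_union, memC, memC, memC]
      simp only [ψ]
      constructor
      · rintro ⟨h, h'⟩
        by_cases h2 : φ v = l₂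
        · exact Or.inr ⟨h, h2⟩
        · rw [if_neg h2] at h'
          exact Or.inl ⟨h, h'⟩
      · rintro (⟨h, h'⟩ | ⟨h, h'⟩)
        · refine ⟨h, ?_⟩
          split_ifs
          · rfl
          · exact h'
        · exact ⟨h, if_pos h'⟩
    have hψ2 : ∀ l, l ≠ l₁ → l ≠ l₂ → C ψ l = C φ l := by
      intro l h h'
      ext v
      rw [memC, memC]
      simp only [ψ]
      constructor
      · rintro ⟨a, b⟩
        split_ifs at b with h3
        · exact absurd b.symm h
        · exact ⟨a, b⟩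
      · rintro ⟨a, b⟩
        refine ⟨a, ?_⟩
        rw [if_neg]
        · exact b
        · rw [b]; exact h'
    have himg : ∀ l ∈ S.image ψ, l ∈ S.image φ ∧ l ≠ l₂ := by
      intro l hl
      obtain ⟨v, hv, rfl⟩ := Finset.mem_image.1 hl
      simp only [ψ]
      split_ifs with h3
      · exact ⟨hl₁, hne⟩
      · exact ⟨Finset.mem_image_of_mem φ hv, h3⟩
    have hval : Valid ψ := by
      intro l hl
      obtain ⟨ha, hb⟩ := himg l hl
      by_cases hll : l = l₁
      · right
        rw [hll, hψ1]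
        exact hflex
      · rw [hψ2 l hll hb]
        exact hφ l ha
    apply hmin ψ hval
    change (S.image ψ).card < (S.image φ).card
    apply Finset.card_lt_card
    rw [Finset.ssubset_iff_of_subset (fun l hl => (himg l hl).1)]
    exact ⟨l₂, hl₂, fun h => (himg l₂ h).2 rfl⟩
  have hsing : ∀ v, C φ (φ v) = {v} → Adm G f (C φ (φ v)) v ∧ R f (C φ (φ v)) = f v := by
    intro v hv
    have hR : R f (C φ (φ v)) = f v := by
      rw [hv]; exact Finset.sum_singleton _ _
    refine ⟨?_, hR⟩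
    rintro x ⟨u, hu, hN⟩
    rw [hR]
    rw [hv, Finset.mem_singleton] at hu
    subst hu
    exact N_symm hN
  have hlab : ∀ l v, C φ l = {v} → φ v = l := by
    intro l v h
    have : v ∈ C φ l := by rw [h]; exact Finset.mem_singleton_self v
    exact ((memC φ l v).1 this).2
  -- centres
  have hcen : ∀ l ∈ S.image φ, ∃ w, Adm G f (C φ l) w ∧ (∀ v, C φ l = {v} → w = v) ∧
      (ecc G w ≤ R f (C φ l) ∨ ∃ u' ∈ S, φ u' ≠ l ∧ C φ (φ u') = {u'} ∧
        N G w u' (R f (C φ l) + f u')) := by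
    intro l hl
    by_cases hs : ∃ v, C φ l = {v}
    · obtain ⟨v, hv⟩ := hs
      have hvl := hlab l v hv
      subst hvl
      obtain ⟨hA, hR⟩ := hsing v hv
      refine ⟨v, hA, fun v' hv' => ?_, ?_⟩
      · rw [hv] at hv'
        exact Finset.singleton_injective hv'
      rw [hR]
      by_cases he : ecc G v ≤ f v
      · exact Or.inl he
      right
      have hvpos : 0 < f v := by rw [← hR]; exact hRpos _ hl
      obtain ⟨u, huv, hu, hN⟩ := hpart v hvpos (by omega)
      have huS : u ∈ S := (memS u).2 hu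
      have hul : φ u ≠ φ v := by
        intro h
        have : u ∈ C φ (φ v) := (memC _ _ _).2 ⟨hu, h⟩
        rw [hv, Finset.mem_singleton] at this
        exact huv this
      refine ⟨u, huS, hul, ?_, N_mono hN (by omega)⟩
      have hlu : φ u ∈ S.image φ := Finset.mem_image_of_mem φ huS
      rcases hφ (φ u) hlu with ⟨u₂, hu₂⟩ | hfl
      · have : u ∈ C φ (φ u) := (memC _ _ _).2 ⟨hu, rfl⟩
        rw [hu₂, Finset.mem_singleton] at this
        rw [hu₂, this]
      · exfalso
        obtain ⟨b, hb1, hb2⟩ := N_split hN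
        obtain ⟨w, hw, k, hk, hwb⟩ := hfl b ⟨u, (memC _ _ _).2 ⟨hu, rfl⟩, N_mono hb2 hu⟩
        have := hsep _ hlu _ hl hul w v hw hA _ (N_trans hwb (N_symm hb1))
        rw [hR] at this
        omega
    · have hfl : Flex G f (C φ l) := (hφ l hl).resolve_left hs
      by_cases he : ∃ w, Adm G f (C φ l) w ∧ ecc G w ≤ R f (C φ l)
      · obtain ⟨w, hw, he⟩ := he
        exact ⟨w, hw, fun v hv => absurd ⟨v, hv⟩ hs, Or.inl he⟩
      push Not at he
      obtain ⟨y₀, hy₀S, hy₀⟩ := Finset.mem_image.1 hl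
      have hy₀pos := (memS y₀).1 hy₀S
      have hyY : Y G f (C φ l) y₀ := ⟨y₀, (memC _ _ _).2 ⟨hy₀pos, hy₀⟩, N_self _ _⟩
      obtain ⟨w₀, hw₀, -⟩ := hfl y₀ hyY
      obtain ⟨x, hx1, hx2⟩ := lt_ecc (he w₀ hw₀)
      have hxY : ¬ Y G f (C φ l) x := fun h => hx2 (hw₀ x h)
      have hr : G.Reachable y₀ x := (N_reach (hw₀ y₀ hyY)).symm.trans hx1
      obtain ⟨p⟩ := hr
      obtain ⟨⟨⟨b, b'⟩, hadj⟩, -, hb, hb'⟩ := p.exists_boundary_dart {y | Y G f (C φ l) y} hyY hxY
      replace hb : Y G f (C φ l) b := hb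
      replace hb' : ¬ Y G f (C φ l) b' := hb'
      replace hadj : G.Adj b b' := hadj
      have hN1 : N G b b' 1 := ⟨SimpleGraph.Walk.cons hadj SimpleGraph.Walk.nil, by simp⟩
      obtain ⟨u', hu', hN'⟩ := hdom b'
      have hu'S := (memS u').2 hu'
      have hl' : φ u' ≠ l := by
        intro h
        exact hb' ⟨u', (memC _ _ _).2 ⟨hu', h⟩, hN'⟩
      have hlu : φ u' ∈ S.image φ := Finset.mem_image_of_mem φ hu'S
      obtain ⟨w, hw, k, hk, hwb⟩ := hfl b hb
      refine ⟨w, hw, fun v hv => absurd ⟨v, hv⟩ hs, Or.inr ⟨u', hu'S, hl', ?_, ?_⟩⟩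
      · rcases hφ (φ u') hlu with ⟨u₂, hu₂⟩ | hfl'
        · have : u' ∈ C φ (φ u') := (memC _ _ _).2 ⟨hu', rfl⟩
          rw [hu₂, Finset.mem_singleton] at this
          rw [hu₂, this]
        · exfalso
          obtain ⟨w', hw', k', hk', hwb'⟩ := hfl' b' ⟨u', (memC _ _ _).2 ⟨hu', rfl⟩, hN'⟩
          have := hsep _ hl _ hlu (Ne.symm hl') w w' hw hw' _
            (N_trans (N_trans hwb hN1) (N_symm hwb'))
          omega
      · exact N_mono (N_trans (N_trans hwb hN1) hN') (by omega)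
  choose! c hc1 hc2 hc3 using hcen
  set L : Finset V := S.image φ with hL
  let val : V → ℕ := fun l => min (R f (C φ l)) (max 1 (ecc G (c l)))
  have hvpos : ∀ l ∈ L, 0 < val l := by
    intro l hl
    have := hRpos l hl
    simp only [val]
    omega
  let g : V → ℕ := fun x => ∑ l ∈ L.filter (fun l => c l = x), val l
  have hinj : ∀ l₁ ∈ L, ∀ l₂ ∈ L, c l₁ = c l₂ → l₁ = l₂ := by
    intro l₁ h₁ l₂ h₂ h
    by_contra hne
    have h3 := hsep l₁ h₁ l₂ h₂ hne (c l₁) (c l₂) (hc1 l₁ h₁) (hc1 l₂ h₂) 0 (by rw [h]; exact N_self _ _)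
    have := hRpos l₁ h₁
    omega
  have hg1 : ∀ l ∈ L, g (c l) = val l := by
    intro l hl
    have : L.filter (fun l' => c l' = c l) = {l} := by
      ext l'
      rw [Finset.mem_filter, Finset.mem_singleton]
      constructor
      · rintro ⟨h, h'⟩; exact hinj _ h _ hl h'
      · rintro rfl; exact ⟨hl, rfl⟩
    simp only [g, this, Finset.sum_singleton]
  have hg2 : ∀ x, 0 < g x → ∃ l ∈ L, c l = x := by
    intro x hx
    by_contra hcon
    push Not at hcon
    have : g x = 0 := by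
      simp only [g]
      rw [Finset.filter_false_of_mem hcon, Finset.sum_empty]
    omega
  have hcost : cost g ≤ cost f := by
    have e1 : cost g = ∑ l ∈ L, val l := by
      unfold cost
      simp only [g]
      exact Finset.sum_fiberwise_of_maps_to (fun _ _ => Finset.mem_univ _) _
    have e2 : ∑ l ∈ L, R f (C φ l) = ∑ u ∈ S, f u := by
      simp only [R, C]
      exact Finset.sum_fiberwise_of_maps_to (fun u hu => Finset.mem_image_of_mem φ hu) _
    have e3 : ∑ u ∈ S, f u ≤ cost f :=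
      Finset.sum_le_sum_of_subset (Finset.subset_univ _)
    rw [e1]
    refine le_trans ?_ (e2.le.trans e3)
    exact Finset.sum_le_sum fun l _ => min_le_left _ _
  -- every vertex hears `g`
  have hgdom : ∀ x, ∃ l ∈ L, N G x (c l) (val l) := by
    intro x
    obtain ⟨u, hu, hN⟩ := hdom x
    have huS := (memS u).2 hu
    have hl : φ u ∈ L := Finset.mem_image_of_mem φ huS
    refine ⟨φ u, hl, ?_⟩
    have h3 := hc1 _ hl x ⟨u, (memC _ _ _).2 ⟨hu, rfl⟩, hN⟩
    have h4 := N_ecc (N_reach h3)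
    apply N_symm
    simp only [val]
    rcases le_total (R f (C φ (φ u))) (max 1 (ecc G (c (φ u)))) with h | h
    · rw [min_eq_left h]; exact h3
    · rw [min_eq_right h]; exact N_mono h4 (le_max_right _ _)
  have hgb : IsBroadcast G g := by
    intro x
    constructor
    · intro hx
      rcases Nat.eq_zero_or_pos (g x) with h | h
      · omega
      · obtain ⟨l, hl, rfl⟩ := hg2 x h
        rw [hg1 l hl]
        simp only [val]
        omega
    · intro hx
      obtain ⟨l, hl, hN⟩ := hgdom x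
      have : x = c l := ecc_zero hx (N_reach hN)
      subst this
      have h5 := hRpos l hl
      rw [hg1 l hl]
      simp only [val, hx]
      omega
  refine ⟨g, max_of hgb ?_ ?_ ?_, hcost⟩
  · intro u v huv hu hv k hk
    obtain ⟨l₁, h₁, rfl⟩ := hg2 u hu
    obtain ⟨l₂, h₂, rfl⟩ := hg2 v hv
    have hne : l₁ ≠ l₂ := by rintro rfl; exact huv rfl
    have := hsep l₁ h₁ l₂ h₂ hne _ _ (hc1 l₁ h₁) (hc1 l₂ h₂) k hk
    rw [hg1 l₁ h₁, hg1 l₂ h₂]
    simp only [val]
    omega
  · intro x
    obtain ⟨l, hl, hN⟩ := hgdom x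
    exact ⟨c l, by rw [hg1 l hl]; exact hvpos l hl, by rw [hg1 l hl]; exact hN⟩
  · intro v hv
    obtain ⟨l, hl, rfl⟩ := hg2 v hv
    rw [hg1 l hl]
    by_cases he : ecc G (c l) ≤ R f (C φ l)
    · left
      simp only [val]
      omega
    · right
      rcases hc3 l hl with h | ⟨u', hu'S, hne, hC, hN⟩
      · exact absurd h he
      have hlu : φ u' ∈ L := Finset.mem_image_of_mem φ hu'S
      have hcu : c (φ u') = u' := hc2 _ hlu u' hC
      have hval' : val (φ u') = f u' := by
        simp only [val]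
        rw [hcu, (hsing u' hC).2]
        have h6 := hfb u'
        have h7 := (memS u').1 hu'S
        rcases Nat.eq_zero_or_pos (ecc G u') with h | h
        · have := h6.2 h
          omega
        · have := h6.1 h
          omega
      have hvall : val l = R f (C φ l) := by
        simp only [val]
        omega
      have hgu : g u' = f u' := by
        have := hg1 _ hlu
        rw [hcu, hval'] at this
        exact this
      refine ⟨u', ?_, ?_, ?_⟩
      · intro h
        apply hne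
        exact hinj _ hlu _ hl (by rw [hcu, h])
      · rw [hgu]; exact (memS u').1 hu'S
      · rw [hgu, hvall]; exact hN

/-- maximal hearing independent broadcasts exist -/
lemma exists_max_h (G : SimpleGraph V) : ∃ f, IsMaxl G (HIndep G) f := by
  classical
  let B : V → ℕ := fun v => max 1 (ecc G v)
  let T : Set (V → ℕ) := {f | IsBroadcast G f ∧ HIndep G f}
  have hT : T.Finite := by
    apply (Set.finite_Icc (0 : V → ℕ) B).subset
    rintro f ⟨hf, -⟩
    refine ⟨fun v => Nat.zero_le _, fun v => ?_⟩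
    simp only [B]
    rcases Nat.eq_zero_or_pos (ecc G v) with h | h
    · have := (hf v).2 h
      omega
    · have := (hf v).1 h
      omega
  have hne : T.Nonempty := by
    refine ⟨fun v => if ecc G v = 0 then 1 else 0, ?_, ?_⟩
    · intro v
      refine ⟨fun h => ?_, fun h => if_pos h⟩
      have h' : ¬ ecc G v = 0 := by omega
      simp only [if_neg h']
      omega
    · rintro u v hu hv huv ⟨-, hN⟩
      rw [← N_iff] at hN
      have : ecc G u = 0 := by
        by_contra h
        simp only [if_neg h] at hu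
        omega
      exact huv (ecc_zero this (N_reach hN))
  obtain ⟨f, hf, hmax⟩ := hT.exists_maximalFor cost T hne
  refine ⟨f, hf.1, hf.2, ?_⟩
  intro g hg hle hne' hP
  have h1 : cost f ≤ cost g := Finset.sum_le_sum fun v _ => hle v
  have h2 := hmax ⟨hg, hP⟩ h1
  apply hne'
  funext v
  by_contra hv
  have h3 : cost f < cost g := Finset.sum_lt_sum (fun v _ => hle v)
    ⟨v, Finset.mem_univ _, lt_of_le_of_ne (hle v) (Ne.symm hv)⟩
  omega

/-- `i_bn(G) ≤ i_h(G)` for every finite simple graph, connected or not (and both minima are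
attained). -/
theorem result (G : SimpleGraph V) :
    (∃ f, IsMaxl G (BnIndep G) f ∧ cost f = iBn G) ∧
    (∃ f, IsMaxl G (HIndep G) f ∧ cost f = iH G) ∧ iBn G ≤ iH G := by
  obtain ⟨f₀, hf₀⟩ := exists_max_h G
  obtain ⟨g₀, hg₀, -⟩ := main_lemma hf₀
  have h1 : (∃ f, IsMaxl G (BnIndep G) f ∧ cost f = iBn G) :=
    Nat.sInf_mem (s := {c | ∃ f, IsMaxl G (BnIndep G) f ∧ cost f = c}) ⟨_, g₀, hg₀, rfl⟩
  have h2 : (∃ f, IsMaxl G (HIndep G) f ∧ cost f = iH G) :=
    Nat.sInf_mem (s := {c | ∃ f, IsMaxl G (HIndep G) f ∧ cost f = c}) ⟨_, f₀, hf₀, rfl⟩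
  refine ⟨h1, h2, ?_⟩
  obtain ⟨f, hf, hfc⟩ := h2
  obtain ⟨g, hg, hgc⟩ := main_lemma hf
  rw [← hfc]
  refine le_trans ?_ hgc
  exact Nat.sInf_le (⟨g, hg, rfl⟩ : cost g ∈ {c | ∃ f, IsMaxl G (BnIndep G) f ∧ cost f = c})

end

end Pool.Agent.Results.MP_2a7bed_co.BoundaryLeHearing
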